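import Pool.Agent.Work.MP_1ad43c_co.PairGame

/-!
# MP_1ad43c_co: no pairing strategy wins the reverse clique game `(K_N, K_5, -)`, `N ≥ 49`
-/

open RCG RCG.Pairing

theorem Pool.Agent.Results.MP_1ad43c_co.NoPairing.result (N : ℕ) (hN : 49 ≤ N)
    (p : Sym2 (Fin N) → Sym2 (Fin N)) (hp : IsPairingOf N p) (σ : Rule N) (hσ : Follows σ p) :
    (((full N).filter fun e => p e = e).card ≤ 1 →
      ∃ l : List (Sym2 (Fin N)), l.length = 10 ∧ SecondLoses σ l) ∧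
    ∀ e₀ ∈ full N, p e₀ = e₀ → ((full N).filter fun e => p e = e).card ≤ 2 →
      ∃ l : List (Sym2 (Fin N)), l.length = 10 ∧ FirstLoses e₀ σ l :=
  ⟨fun h => second_loses hN hp h hσ, fun _ he₀ hpe₀ h => first_loses hN hp h he₀ hpe₀ hσ⟩
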