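import Pool.Agent.Work.MP_1ad43c_co.OneTempo

/-!
# The reverse clique game is decided by a single tempo

In the reverse clique game on `K_N` each player wins if he may pass once, and each player wins if his
own anti-goal is relaxed by one edge; the winner changes if one edge of the board is changed.
-/

namespace Pool.Agent.Results.MP_1ad43c_co.OneTempo

open RCG

/-- One pass, one additional edge, or one edge of the board decides the reverse clique game. -/
theorem result (p N : ℕ) (hp : 3 ≤ p) :
    (Ramsey p p N →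
      (SecondWins (full N) (HasK p) (HasK p) 1 ∧ FirstWins (full N) (HasK p) (HasK p) 1) ∧
      (SecondWins (full N) (HasKm p) (HasK p) 0 ∧ FirstWins (full N) (HasK p) (HasKm p) 0) ∧
      (FirstWins (full N) (HasK p) (HasK p) 0 ∨ SecondWins (full N) (HasK p) (HasK p) 0) ∧
      (FirstWins (full N) (HasK p) (HasK p) 0 →
        ∀ e ∈ full N, SecondWins ((full N).erase e) (HasK p) (HasK p) 0) ∧
      (SecondWins (full N) (HasK p) (HasK p) 0 → FirstWins (pendant N) (HasK p) (HasK p) 0)) ∧
    (Ramsey p (p + 1) N →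
      (SecondWins (full N) (HasK p) (HasSpreadK p) 0 ∧
        FirstWins (full N) (HasSpreadK p) (HasK p) 0) ∧
      (SecondWins (full N) (HasK p) (HasK (p + 1)) 0 ∧
        FirstWins (full N) (HasK (p + 1)) (HasK p) 0)) ∧
    ∀ q : ℕ, 1 ≤ q → (p + q - 2).choose (p - 1) ≤ N → Ramsey p q N := by
  have hp2 : 2 ≤ p := by omega
  refine ⟨fun hR => ⟨main_one_pass hp2 hR, main_minus' hp hR, main_determined hp2 hR,
    main_delete' hp, main_pendant hp⟩, fun hR => ⟨main_spread hp2 hR, main_succ' hp2 hR⟩,
    fun q hq h => ?_⟩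
  obtain ⟨a, rfl⟩ : ∃ a, p = a + 1 := ⟨p - 1, by omega⟩
  obtain ⟨b, rfl⟩ : ∃ b, q = b + 1 := ⟨q - 1, by omega⟩
  refine ramsey_of_choose a b ?_
  have h1 : a + 1 + (b + 1) - 2 = a + b := by omega
  rw [h1, Nat.add_sub_cancel] at h
  exact h

end Pool.Agent.Results.MP_1ad43c_co.OneTempo
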